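import Mathlib

/-!
Maps between a finite dimensional normed space and `ℓ_∞^N` which are bi-Lipschitz up to a small
additive error on all finite sets give linear embeddings with the same distortion.
-/

set_option autoImplicit false

namespace Pool.Agent.H45.PE

open Filter Topology Set

variable {X : Type} [NormedAddCommGroup X] [NormedSpace ℝ X]

/-- `f` has the distortion `D` on `S` up to the additive error `ε`. -/
def Near (D ε : ℝ) (S : Set X) {N : ℕ} (f : X → Fin N → ℝ) : Prop :=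
  ∀ x ∈ S, ∀ y ∈ S, ‖x - y‖ - ε ≤ ‖f x - f y‖ ∧ ‖f x - f y‖ ≤ D * ‖x - y‖ + ε

/-- a bi-Lipschitz map gives a linear one: Rademacher's theorem -/
theorem linear_of_bilip [FiniteDimensional ℝ X] {N : ℕ} {D : ℝ} (g : X → Fin N → ℝ)
    (hg : ∀ x y, ‖x - y‖ ≤ ‖g x - g y‖ ∧ ‖g x - g y‖ ≤ D * ‖x - y‖) :
    ∃ T : X →ₗ[ℝ] (Fin N → ℝ), ∀ x, ‖x‖ ≤ ‖T x‖ ∧ ‖T x‖ ≤ D * ‖x‖ := by
  rcases subsingleton_or_nontrivial X with hX | hX
  · refine ⟨0, fun x => ?_⟩
    rw [Subsingleton.elim x 0]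
    simp
  · obtain ⟨x1, hx1⟩ := exists_ne (0 : X)
    have hD : 0 ≤ D := by
      have h1 := hg x1 0
      rw [sub_zero] at h1
      have h2 : 0 < ‖x1‖ := norm_pos_iff.2 hx1
      have h3 := h1.1.trans h1.2
      by_contra hc
      push Not at hc
      nlinarith
    let _ : MeasurableSpace X := borel X
    have : BorelSpace X := ⟨rfl⟩
    have hL : LipschitzWith (Real.toNNReal D) g := by
      apply LipschitzWith.of_dist_le_mul
      intro x y
      rw [dist_eq_norm, dist_eq_norm, Real.coe_toNNReal D hD]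
      exact (hg x y).2
    have hae := hL.ae_differentiableAt (μ := (MeasureTheory.Measure.addHaar : MeasureTheory.Measure X))
    obtain ⟨x0, hx0⟩ := hae.exists
    have hd := hx0.hasFDerivAt
    refine ⟨(fderiv ℝ g x0 : X →ₗ[ℝ] (Fin N → ℝ)), fun v => ?_⟩
    have h1 : HasDerivAt (fun t : ℝ => g (x0 + t • v)) (fderiv ℝ g x0 v) 0 := by
      have h2 : HasDerivAt (fun t : ℝ => x0 + t • v) v 0 := by
        have := ((hasDerivAt_id (0 : ℝ)).smul_const v).const_add x0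
        simpa using this
      have h3 : HasFDerivAt g (fderiv ℝ g x0) (x0 + (0 : ℝ) • v) := by simpa using hd
      exact h3.comp_hasDerivAt (0 : ℝ) h2
    have h4 := (hasDerivAt_iff_tendsto_slope.1 h1).norm
    have h5 : ∀ t : ℝ, t ≠ 0 → ‖v‖ ≤ ‖slope (fun t : ℝ => g (x0 + t • v)) 0 t‖ ∧
        ‖slope (fun t : ℝ => g (x0 + t • v)) 0 t‖ ≤ D * ‖v‖ := by
      intro t ht
      have h6 := hg (x0 + t • v) x0
      have h7 : x0 + t • v - x0 = t • v := by abel
      rw [h7, norm_smul, Real.norm_eq_abs] at h6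
      have h8 : 0 < |t| := abs_pos.2 ht
      rw [slope_def_module, norm_smul, norm_inv, Real.norm_eq_abs, sub_zero, zero_smul, add_zero]
      rw [inv_mul_eq_div, le_div_iff₀ h8, div_le_iff₀ h8]
      constructor
      · linarith [h6.1]
      · linarith [h6.2]
    have hev : ∀ᶠ t in 𝓝[≠] (0 : ℝ), t ≠ 0 := self_mem_nhdsWithin
    constructor
    · exact ge_of_tendsto h4 (hev.mono fun t ht => (h5 t ht).1)
    · exact le_of_tendsto h4 (hev.mono fun t ht => (h5 t ht).2)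

omit [NormedSpace ℝ X] in
/-- compactness -/
theorem bilip_of_near {N : ℕ} {D : ℝ}
    (h : ∀ (F : Finset X) (ε : ℝ), 0 < ε → ∃ f : X → Fin N → ℝ, Near D ε (F : Set X) f) :
    ∃ g : X → Fin N → ℝ, ∀ x y, ‖x - y‖ ≤ ‖g x - g y‖ ∧ ‖g x - g y‖ ≤ D * ‖x - y‖ := by
  classical
  have h1 : ∀ i : Finset X × ℕ, ∃ f : X → Fin N → ℝ,
      Near D (1 / ((i.2 : ℝ) + 1)) ((insert 0 i.1 : Finset X) : Set X) f :=
    fun i => h _ _ (by positivity)
  choose f hf using h1
  set u : Finset X × ℕ → X → Fin N → ℝ := fun i x => f i x - f i 0 with hu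
  let U : Ultrafilter (Finset X × ℕ) := Ultrafilter.of atTop
  have hU : (U : Filter (Finset X × ℕ)) ≤ atTop := Ultrafilter.of_le _
  have hmem : ∀ x : X, ∀ᶠ i in (U : Filter (Finset X × ℕ)), x ∈ i.1 := by
    intro x
    apply hU
    filter_upwards [eventually_ge_atTop (({x} : Finset X), 0)] with i hi
    exact hi.1 (Finset.mem_singleton_self x)
  have hlim : ∀ x : X, ∃ a, Tendsto (fun i => u i x) U (𝓝 a) := by
    intro x
    have hb : ∀ᶠ i in (U : Filter (Finset X × ℕ)), u i x ∈ Metric.closedBall (0 : Fin N → ℝ) (D * ‖x‖ + 1) := by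
      filter_upwards [hmem x] with i hi
      have h2 := (hf i x (by simp [hi]) 0 (by simp)).2
      rw [sub_zero] at h2
      rw [mem_closedBall_zero_iff]
      refine h2.trans ?_
      have : (1 : ℝ) / ((i.2 : ℝ) + 1) ≤ 1 := by
        rw [div_le_one (by positivity)]
        have : (0 : ℝ) ≤ i.2 := Nat.cast_nonneg _
        linarith
      linarith
    obtain ⟨a, _, ha⟩ := (isCompact_closedBall (0 : Fin N → ℝ) (D * ‖x‖ + 1)).ultrafilter_le_nhds
      (U.map (fun i => u i x)) (by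
        rw [le_principal_iff]
        exact hb)
    exact ⟨a, ha⟩
  choose g hg using hlim
  refine ⟨g, fun x y => ?_⟩
  have ht : Tendsto (fun i => ‖u i x - u i y‖) U (𝓝 ‖g x - g y‖) := ((hg x).sub (hg y)).norm
  have he : Tendsto (fun i : Finset X × ℕ => (1 : ℝ) / ((i.2 : ℝ) + 1)) U (𝓝 0) := by
    refine Tendsto.mono_left ?_ hU
    have h3 : Tendsto (fun n : ℕ => (1 : ℝ) / ((n : ℝ) + 1)) atTop (𝓝 0) :=
      tendsto_one_div_add_atTop_nhds_zero_nat
    have h4 : Tendsto (fun i : Finset X × ℕ => i.2) atTop atTop := by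
      rw [← prod_atTop_atTop_eq]
      exact tendsto_snd
    exact h3.comp h4
  have hev : ∀ᶠ i in (U : Filter (Finset X × ℕ)),
      ‖x - y‖ - 1 / ((i.2 : ℝ) + 1) ≤ ‖u i x - u i y‖ ∧
        ‖u i x - u i y‖ ≤ D * ‖x - y‖ + 1 / ((i.2 : ℝ) + 1) := by
    filter_upwards [hmem x, hmem y] with i hx hy
    have h4 := hf i x (by simp [hx]) y (by simp [hy])
    have h5 : u i x - u i y = f i x - f i y := by
      simp only [hu]; abel
    rw [h5]
    exact h4
  constructor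
  · have h6 : Tendsto (fun i : Finset X × ℕ => ‖x - y‖ - 1 / ((i.2 : ℝ) + 1)) U (𝓝 (‖x - y‖ - 0)) :=
      tendsto_const_nhds.sub he
    have := le_of_tendsto_of_tendsto h6 ht (hev.mono fun i hi => hi.1)
    linarith
  · have h6 : Tendsto (fun i : Finset X × ℕ => D * ‖x - y‖ + 1 / ((i.2 : ℝ) + 1)) U
        (𝓝 (D * ‖x - y‖ + 0)) := tendsto_const_nhds.add he
    have := le_of_tendsto_of_tendsto ht h6 (hev.mono fun i hi => hi.2)
    linarith

omit [NormedSpace ℝ X] in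
theorem Near.mono {D ε ε' : ℝ} {S S' : Set X} {N : ℕ} {f : X → Fin N → ℝ} (h : Near D ε S f)
    (hS : S' ⊆ S) (hε : ε ≤ ε') : Near D ε' S' f := by
  intro x hx y hy
  have := h x (hS hx) y (hS hy)
  constructor <;> linarith [this.1, this.2]

/-- rescaling: the finite subsets of the unit ball suffice -/
theorem near_scale {N : ℕ} {D : ℝ}
    (h : ∀ F : Finset X, (∀ x ∈ F, ‖x‖ ≤ 1) → ∀ ε : ℝ, 0 < ε →
      ∃ f : X → Fin N → ℝ, Near D ε (F : Set X) f) :
    ∀ (F : Finset X) (ε : ℝ), 0 < ε → ∃ f : X → Fin N → ℝ, Near D ε (F : Set X) f := by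
  classical
  intro F ε hε
  set R : ℝ := 1 + ∑ x ∈ F, ‖x‖ with hR
  have hR1 : 1 ≤ R := by
    have : 0 ≤ ∑ x ∈ F, ‖x‖ := Finset.sum_nonneg fun x _ => norm_nonneg x
    linarith
  have hR0 : 0 < R := by linarith
  have hb : ∀ x ∈ F, ‖x‖ ≤ R := by
    intro x hx
    have h0 : ‖x‖ ≤ ∑ x ∈ F, ‖x‖ :=
      Finset.single_le_sum (f := fun x => ‖x‖) (fun x _ => norm_nonneg x) hx
    linarith
  obtain ⟨f, hf⟩ := h (F.image fun x => R⁻¹ • x) (by
    intro x hx
    obtain ⟨y, hy, rfl⟩ := Finset.mem_image.1 hx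
    rw [norm_smul, norm_inv, Real.norm_eq_abs, abs_of_pos hR0, inv_mul_le_iff₀ hR0, mul_one]
    exact hb y hy) (ε / R) (by positivity)
  refine ⟨fun x => R • f (R⁻¹ • x), fun x hx y hy => ?_⟩
  have h1 := hf (R⁻¹ • x) (by
    rw [Finset.mem_coe]; exact Finset.mem_image_of_mem _ hx) (R⁻¹ • y) (by
    rw [Finset.mem_coe]; exact Finset.mem_image_of_mem _ hy)
  rw [← smul_sub, norm_smul, norm_inv, Real.norm_eq_abs, abs_of_pos hR0] at h1
  rw [← smul_sub, norm_smul, Real.norm_eq_abs, abs_of_pos hR0]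
  set a := ‖f (R⁻¹ • x) - f (R⁻¹ • y)‖ with ha
  set b := ‖x - y‖ with hb'
  have e1 : R * (R⁻¹ * b - ε / R) = b - ε := by field_simp
  have e2 : R * (D * (R⁻¹ * b) + ε / R) = D * b + ε := by field_simp
  constructor
  · rw [← e1]
    exact mul_le_mul_of_nonneg_left h1.1 hR0.le
  · rw [← e2]
    exact mul_le_mul_of_nonneg_left h1.2 hR0.le

/-- rescaling a quasi-isometric embedding -/
theorem near_of_coarse {N : ℕ} {D C : ℝ} {f : X → Fin N → ℝ}
    (h : ∀ x y, ‖x - y‖ - C ≤ ‖f x - f y‖ ∧ ‖f x - f y‖ ≤ D * ‖x - y‖ + C) :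
    ∀ (F : Finset X) (ε : ℝ), 0 < ε → ∃ f : X → Fin N → ℝ, Near D ε (F : Set X) f := by
  intro F ε hε
  set k : ℝ := 1 + |C| / ε with hk
  have hk0 : 0 < k := by positivity
  have hC : C / k ≤ ε := by
    rw [div_le_iff₀ hk0, hk]
    have h1 : ε * (1 + |C| / ε) = ε + |C| := by field_simp
    rw [h1]
    linarith [le_abs_self C]
  refine ⟨fun x => k⁻¹ • f (k • x), fun x _ y _ => ?_⟩
  have h1 := h (k • x) (k • y)
  rw [← smul_sub, norm_smul, Real.norm_eq_abs, abs_of_pos hk0] at h1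
  rw [← smul_sub, norm_smul, norm_inv, Real.norm_eq_abs, abs_of_pos hk0]
  set a := ‖f (k • x) - f (k • y)‖ with ha
  set b := ‖x - y‖ with hb'
  have e1 : k⁻¹ * (k * b - C) = b - C / k := by field_simp
  have e2 : k⁻¹ * (D * (k * b) + C) = D * b + C / k := by field_simp
  have h2 : 0 ≤ k⁻¹ := by positivity
  constructor
  · have := mul_le_mul_of_nonneg_left h1.1 h2
    rw [e1] at this
    linarith
  · have := mul_le_mul_of_nonneg_left h1.2 h2
    rw [e2] at this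
    linarith

omit [NormedSpace ℝ X] in
/-- a quasi-isometric embedding of a coarsely dense subset -/
theorem coarse_of_net {N : ℕ} {D C R : ℝ} {S : Set X} (hS : ∀ x : X, ∃ s ∈ S, ‖x - s‖ ≤ R)
    {f : X → Fin N → ℝ} (h : Near D C S f) :
    ∃ (C' : ℝ) (f' : X → Fin N → ℝ),
      ∀ x y, ‖x - y‖ - C' ≤ ‖f' x - f' y‖ ∧ ‖f' x - f' y‖ ≤ D * ‖x - y‖ + C' := by
  choose s hs1 hs2 using hS
  have hR : 0 ≤ R := (norm_nonneg _).trans (hs2 0)
  refine ⟨|C| + 2 * R + 2 * R * |D|, fun x => f (s x), fun x y => ?_⟩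
  have h1 := h (s x) (hs1 x) (s y) (hs1 y)
  have h2 : |‖s x - s y‖ - ‖x - y‖| ≤ 2 * R := by
    have h3 := abs_norm_sub_norm_le (s x - s y) (x - y)
    refine h3.trans ?_
    have h4 : s x - s y - (x - y) = (y - s y) - (x - s x) := by abel
    rw [h4]
    have := norm_sub_le (y - s y) (x - s x)
    linarith [hs2 x, hs2 y]
  have h5 := abs_le.1 h2
  have h6 : D * ‖s x - s y‖ ≤ D * ‖x - y‖ + 2 * R * |D| := by
    have h7 : D * (‖s x - s y‖ - ‖x - y‖) ≤ |D| * (2 * R) := by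
      refine (le_abs_self _).trans ?_
      rw [abs_mul]
      exact mul_le_mul_of_nonneg_left h2 (abs_nonneg D)
    nlinarith
  have h8 : 0 ≤ 2 * R * |D| := by positivity
  have h9 := le_abs_self C
  constructor
  · linarith [h1.1]
  · linarith [h1.2]

/-- the finite set which obstructs all the small `N` -/
theorem obstruction [FiniteDimensional ℝ X] {D B : ℝ}
    (h : ∀ N : ℕ, (∃ T : X →ₗ[ℝ] (Fin N → ℝ), ∀ x, ‖x‖ ≤ ‖T x‖ ∧ ‖T x‖ ≤ D * ‖x‖) → B ≤ N) :
    ∃ F : Finset X, (∀ x ∈ F, ‖x‖ ≤ 1) ∧ ∃ ε : ℝ, 0 < ε ∧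
      ∀ (N : ℕ) (f : X → Fin N → ℝ), Near D ε (F : Set X) f → B ≤ N := by
  classical
  have h1 : ∀ N : ℕ, (N : ℝ) < B → ∃ F : Finset X, (∀ x ∈ F, ‖x‖ ≤ 1) ∧ ∃ ε : ℝ, 0 < ε ∧
      ∀ f : X → Fin N → ℝ, ¬ Near D ε (F : Set X) f := by
    intro N hN
    by_contra hcon
    push Not at hcon
    obtain ⟨g, hg⟩ := bilip_of_near (near_scale hcon)
    exact absurd (h N (linear_of_bilip g hg)) (not_le.2 hN)
  have h2 : ∀ M : ℕ, ∃ F : Finset X, (∀ x ∈ F, ‖x‖ ≤ 1) ∧ ∃ ε : ℝ, 0 < ε ∧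
      ∀ N : ℕ, N < M → (N : ℝ) < B → ∀ f : X → Fin N → ℝ, ¬ Near D ε (F : Set X) f := by
    intro M
    induction M with
    | zero => exact ⟨∅, by simp, 1, one_pos, fun N hN => absurd hN (Nat.not_lt_zero _)⟩
    | succ M ih =>
      obtain ⟨F, hF, ε, hε, hM⟩ := ih
      by_cases hB : (M : ℝ) < B
      · obtain ⟨F', hF', ε', hε', hM'⟩ := h1 M hB
        refine ⟨F ∪ F', ?_, min ε ε', lt_min hε hε', ?_⟩
        · intro x hx
          rcases Finset.mem_union.1 hx with hx | hx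
          · exact hF x hx
          · exact hF' x hx
        · intro N hN hNB f hf
          rcases Nat.lt_succ_iff_lt_or_eq.1 hN with hN | rfl
          · exact hM N hN hNB f (hf.mono (by simp) (min_le_left _ _))
          · exact hM' f (hf.mono (by simp) (min_le_right _ _))
      · refine ⟨F, hF, ε, hε, ?_⟩
        intro N hN hNB f hf
        rcases Nat.lt_succ_iff_lt_or_eq.1 hN with hN | rfl
        · exact hM N hN hNB f hf
        · exact hB hNB
  obtain ⟨F, hF, ε, hε, hM⟩ := h2 (⌈B⌉₊ + 1)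
  refine ⟨F, hF, ε, hε, fun N f hf => ?_⟩
  by_contra hcon
  push Not at hcon
  refine hM N ?_ hcon f hf
  have h3 : (N : ℝ) < ⌈B⌉₊ := hcon.trans_le (Nat.le_ceil B)
  have h4 : N < ⌈B⌉₊ := by exact_mod_cast h3
  omega

end Pool.Agent.H45.PE
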